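import Pool.Agent.Helper28_MNW.MAIN
import Pool.Agent.Helper28_MNW.SPW
import Pool.Agent.Helper28_MNU.ASM
import Pool.Agent.Helper41_MNV.HXT
import Pool.Agent.Helper55_MNW.All
import Pool.Agent.Helper95_MNW.CNW
import Pool.Agent.Helper24_MNW.LOW
import Pool.Agent.Helper85_MNW.NBW
import Pool.Agent.Helper30_MNW.LBW
import Pool.Agent.Helper38_MNW.HGW
import Pool.Agent.Helper39_MNW.FNW
import Pool.Agent.Helper39_MNW.RDW
import Pool.Agent.Helper31_MNW.LDW
import Pool.Agent.Helper51_MNW.LTW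
import Pool.Agent.Helper92_MNW.MPW
import Pool.Agent.Helper41_MNW.SVW
import Pool.Agent.Helper19_MNW.RFW
import Pool.Agent.Helper60_MNW.RTW

set_option autoImplicit false

/-!
# MNW: all rows put together
-/

namespace Pool.Agent.MNW.All

open Pool.Agent.MNT Pool.Agent.MNW

theorem good (g : ℕ) (hg : 2 ≤ g) : Good g (num g) := by
  unfold num
  split_ifs with h1 h2
  · subst h1
    exact H55.good.1
  · subst h2
    exact H55.good.2.1
  · exact H55.good.2.2 g (by omega)

theorem low : LowStmt := H24.low MNT.All.vlm MNU.All.rep H95.cnw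
theorem lbw : LbwStmt := H30.lbw low H85.nbw MNU.All.ote MNT.All.otn
theorem hgw : HgwStmt := H38.hgw lbw MNT.H95.pfl BHT.ev UBT.ext1
theorem fnw : FnwStmt := H39.fnw hgw H76BHT.ncs
theorem ldw : LdwStmt := H31.ldw MNU.All.hsi MNU.All.mob_ MNU.All.moi MNU.All.cne MNT.All.pel
theorem ltw : LtwStmt := H51.ltw ldw
theorem spw : SpwStmt := H28.spw MNT.All.pel MNT.All.bch UBT.ext1
theorem mpw : MpwStmt := H92.mpw spw
theorem rdw : RdwStmt := H39.rdw hgw MNV.H41.hxt
theorem rfw : RfwStmt := H19.rfw rdw H76BHT.ncs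
theorem rtw : RtwStmt := H60.rtw rdw MNU.All.gpr MNU.All.prp

theorem final (g : ℕ) (hg : 2 ≤ g) :
    HeightBound g (num g) ∧ FinitelyMany g (num g) ∧ FinitelyManyCurves g (num g) := by
  have h := good g hg
  have hm : 1 ≤ num g := by
    obtain ⟨A, hA⟩ := h
    exact le_trans (by norm_num) hA.m_ge
  have h1 := H28.main1 MNT.All.pel hgw fnw spw g (num g) h
  exact ⟨h1.1, h1.2, H28.main2 ltw mpw H41.svw rfw rtw MNU.All.bcj g (num g) h hm⟩

end Pool.Agent.MNW.All
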