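import Pool.Agent.Helper74_MNW.BLU

set_option autoImplicit false

/-! # MNW, rows IDD and IDU (backup) -/

namespace Pool.Agent.MNW.H28

open Pool.Agent.MNT
open scoped Classical

variable {V : Type} [Fintype V] [PartialOrder V] [OrderTop V]

set_option linter.unusedSectionVars false

theorem le_eq (f : V → ℝ) (v : V) : ∑ d with d ≤ v, f d = f v + ∑ d with d < v, f d := by
  have h1 : (Finset.univ.filter fun d : V => d ≤ v) =
      insert v (Finset.univ.filter fun d : V => d < v) := by
    ext d
    simp [le_iff_eq_or_lt]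
  rw [h1, Finset.sum_insert (by simp)]

theorem lt_eq (T : MNT.Tree V) (f : V → ℝ) (v : V) :
    ∑ d with d < v, f d = ∑ c ∈ T.kids v, ∑ d with d ≤ c, f d := by
  have h1 : ∀ c ∈ T.kids v, ∑ d with d ≤ c, f d = ∑ d, if d ≤ c then f d else 0 := fun c _ => by
    rw [← Finset.sum_filter]
  rw [Finset.sum_congr rfl h1, Finset.sum_comm, Finset.sum_filter]
  refine Finset.sum_congr rfl fun d _ => ?_
  rw [← Finset.sum_filter, Finset.sum_const, nsmul_eq_mul]
  by_cases hd : d < v
  · rw [if_pos hd]
    obtain ⟨e, he, hde⟩ := H74.below_kid T v d hd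
    have h3 : (T.kids v).filter (fun e => d ≤ e) = {e} := by
      ext e'
      rw [Finset.mem_filter, Finset.mem_singleton]
      constructor
      · rintro ⟨h4, h5⟩
        exact T.kids_disj h4 he h5 hde
      · rintro rfl
        exact ⟨he, hde⟩
    rw [h3]
    simp
  · rw [if_neg hd]
    have h3 : (T.kids v).filter (fun e => d ≤ e) = ∅ := by
      rw [Finset.filter_eq_empty_iff]
      intro e' he' hde'
      rw [T.mem_kids] at he'
      have := T.lt_par e' he'.1
      rw [he'.2] at this
      exact hd (lt_of_le_of_lt hde' this)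
    rw [h3]
    simp

theorem idd (hHHC : HhcStmt) : IddStmt := by
  intro g m A V _ _ _ T G a b l s r q U hl hLa hR hD v
  induction v using WellFoundedLT.induction with
  | ind v ih =>
    have hH := hHHC V T G l s r hl hLa.top hR
    rw [le_eq, lt_eq T, lt_eq T, hD.U_eq v, hD.q_eq v]
    have key : ∀ c ∈ T.kids v, ∑ d with d ≤ c, l d * w1 g m A (a d) (b d) -
        A * ∑ d with d ≤ c, rho T b d * hh l s r d =
        YD g m A a b l s q U c - A * ((s c / (s c + l c)) ^ 2 * q c) * hh l s r v := by
      intro c hc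
      obtain ⟨hc1, hc2⟩ := (T.mem_kids v c).1 hc
      have hcv : c < v := hc2 ▸ T.lt_par c hc1
      have h1 := ih c hcv
      have h2 := (hH c hc1).1
      rw [hc2] at h2
      rw [le_eq (fun d => l d * w1 g m A (a d) (b d)) c]
      unfold YD
      linear_combination h1 - A * q c * h2
    have hs := Finset.sum_congr rfl key
    rw [Finset.sum_sub_distrib, Finset.sum_sub_distrib, ← Finset.sum_mul, ← Finset.mul_sum,
      ← Finset.mul_sum] at hs
    linear_combination hs

/-- the part of the tree which is not below `c` -/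
theorem splitn (T : MNT.Tree V) (l : V → ℝ) (c : V) (hc : c ≠ ⊤) :
    ∑ d with ¬ d ≤ c, l d =
      l (T.par c) + ∑ e ∈ (T.kids (T.par c)).erase c, (l e + ∑ d with d < e, l d) +
        if T.par c = ⊤ then 0 else ∑ d with ¬ d ≤ T.par c, l d := by
  have h0 : ∀ x : V, x ≠ ⊤ → ∑ d with ¬ d ≤ x, l d = l ⊤ + ∑ d with d ≠ ⊤ ∧ ¬ d ≤ x, l d := by
    intro x hx
    have h1 : (Finset.univ.filter fun d : V => ¬ d ≤ x) =
        insert ⊤ (Finset.univ.filter fun d : V => d ≠ ⊤ ∧ ¬ d ≤ x) := by
      ext d
      simp only [Finset.mem_filter, Finset.mem_univ, true_and, Finset.mem_insert]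
      constructor
      · intro h
        by_cases hd : d = ⊤
        · exact Or.inl hd
        · exact Or.inr ⟨hd, h⟩
      · rintro (h | ⟨_, h⟩)
        · rw [h]
          intro h2
          exact hx (top_le_iff.1 h2)
        · exact h
    rw [h1, Finset.sum_insert (by simp)]
  rw [h0 c hc, H74.split T l c hc]
  by_cases h : T.par c = ⊤
  · rw [if_pos h, if_pos h, h]
    ring
  · rw [if_neg h, if_neg h, h0 _ h]
    ring

theorem idu (hHHC : HhcStmt) (hIDD : IddStmt) : IduStmt := by
  intro g m A V _ _ _ T G a b l s r q U p Z hl hLa hR hD hW c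
  have hH := hHHC V T G l s r hl hLa.top hR
  have hI := hIDD g m A V T G a b l s r q U hl hLa hR hD
  induction c using WellFoundedGT.induction with
  | ind c ih =>
    intro hc
    have hck : c ∈ T.kids (T.par c) := (T.mem_kids _ _).2 ⟨hc, rfl⟩
    have hZ := hW.Z_eq c hc
    have hp := hW.p_eq c hc
    have hsp1 := H74.split T (fun d => l d * w1 g m A (a d) (b d)) c hc
    have hsp2 := splitn T (fun d => rho T b d * hh l s r d) c hc
    have key : ∀ d ∈ (T.kids (T.par c)).erase c,
        (l d * w1 g m A (a d) (b d) + ∑ e with e < d, l e * w1 g m A (a e) (b e)) -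
        A * (rho T b d * hh l s r d + ∑ e with e < d, rho T b e * hh l s r e) =
        YD g m A a b l s q U d - A * ((s d / (s d + l d)) ^ 2 * q d) * hh l s r (T.par c) := by
      intro d hd
      rw [Finset.mem_erase] at hd
      obtain ⟨hd1, hd2⟩ := (T.mem_kids _ d).1 hd.2
      have h1 := hI d
      have h2 := (hH d hd1).1
      rw [hd2] at h2
      rw [le_eq (fun d => rho T b d * hh l s r d) d] at h1
      unfold YD
      linear_combination h1 - A * q d * h2
    have hs := Finset.sum_congr rfl key
    rw [Finset.sum_sub_distrib, Finset.sum_sub_distrib, ← Finset.sum_mul, ← Finset.mul_sum,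
      ← Finset.mul_sum] at hs
    rw [hsp1, hsp2, hZ, hp]
    by_cases h : T.par c = ⊤
    · rw [if_pos h, if_pos h, if_pos h, if_pos h]
      linear_combination hs
    · rw [if_neg h, if_neg h, if_neg h, if_neg h]
      have h1 := ih (T.par c) (T.lt_par c hc) h
      have h2 := (hH (T.par c) h).2
      unfold YU
      linear_combination hs + h1 - A * p (T.par c) * h2

end Pool.Agent.MNW.H28
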