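import Pool.Agent.Helper28_MNW.MAIN0

set_option autoImplicit false

/-! # MNW: assembly of the final theorem -/

namespace Pool.Agent.MNW.H28

open Polynomial NumberField
open Pool.Agent.MNT

theorem main1 (hpel : PelStmt) (hh : HgwStmt) (hf : FnwStmt) (hs : SpwStmt) (g m : ℕ) (hg : Good g m) :
    HeightBound g m ∧ FinitelyMany g m := by
  refine ⟨?_, ?_⟩
  · intro K _ _ C x y hC e θ hfe
    exact hh g m hg K _ e (cfg_of hpel g m C.f hC.deg C.sqfree x y hC.inj hC.on hC.ne
      (fun i => (tor_iff C _ _).1 (hC.tor i)) e θ hfe)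
  · intro d
    obtain ⟨S, hS⟩ := hf g m hg (d * (2 * g + 1).factorial)
    refine ⟨S, ?_⟩
    intro K _ _ hK C x y hC φ
    obtain ⟨E, _, _, _, e, θ, hE, hfe, hconf⟩ := hs g m K C.f hC.deg C.sqfree x y hC.inj
      hC.on hC.ne (fun i => (tor_iff C _ _).1 (hC.tor i))
    have hE' : Module.finrank ℚ E ≤ d * (2 * g + 1).factorial :=
      hE.trans (Nat.mul_le_mul_right _ hK)
    let _ : Algebra K (AlgebraicClosure ℚ) := φ.toAlgebra
    have _ : Algebra.IsAlgebraic K E := by
      have _ : IsScalarTower ℚ K E := inferInstance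
      exact Algebra.IsAlgebraic.tower_top (K := ℚ) K
    let ψ : E →ₐ[K] AlgebraicClosure ℚ := IsAlgClosed.lift
    have hψ : ∀ a : K, ψ (algebraMap K E a) = φ a := fun a => ψ.commutes a
    obtain ⟨s, hs', μ, ν, hμ, hp⟩ := hS E hE' _ e hconf ψ.toRingHom
    have hp' : ∀ p, ψ (Sum.elim θ (fun i => algebraMap K E (x i)) p) = μ * s p + ν := hp
    refine ⟨s, hs', μ, ν, hμ, ?_, ?_⟩
    · intro i
      have := hp' (Sum.inr i)
      rw [Sum.elim_inr, hψ] at this
      exact this
    · have h3 : C.f.map φ = (C.f.map (algebraMap K E)).map ψ.toRingHom := by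
        rw [Polynomial.map_map]
        congr 1
        ext a
        exact (hψ a).symm
      have h4 : (C.f.map (algebraMap K E)).map ψ.toRingHom =
          Polynomial.C (ψ e) * ∏ j, (X - Polynomial.C (μ * s (Sum.inl j) + ν)) := by
        rw [hfe, Polynomial.map_mul, Polynomial.map_C, Polynomial.map_prod]
        congr 1
        refine Finset.prod_congr rfl fun j _ => ?_
        rw [Polynomial.map_sub, Polynomial.map_X, Polynomial.map_C]
        have := hp' (Sum.inl j)
        rw [Sum.elim_inl] at this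
        rw [← this]
        rfl
      have he : ψ e ≠ 0 := (_root_.map_ne_zero ψ).2 hconf.e_ne
      rw [h3, h4, Polynomial.roots_C_mul _ he]
      have h5 : (∏ j, (X - Polynomial.C (μ * s (Sum.inl j) + ν))) =
          ((Finset.univ.val.map fun j => μ * s (Sum.inl j) + ν).map
            fun a => X - Polynomial.C a).prod := by
        rw [Multiset.map_map]
        rfl
      rw [h5, Polynomial.roots_multiset_prod_X_sub_C]

theorem main2 (hldt : LtwStmt) (hmpt : MpwStmt) (hspv : SvwStmt) (hrfn : RfwStmt) (hrtb : RtwStmt)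
    (hb : MNU.BcjStmt) (g m : ℕ) (hg : Good g m) (hm : 1 ≤ m) : FinitelyManyCurves g m := by
  intro d
  obtain ⟨S, hS⟩ := hrfn g m hg (d * (2 * g + 1).factorial)
  obtain ⟨B, hB⟩ := hrtb g m hg (d * (2 * g + 1).factorial)
  refine ⟨S, B, ?_⟩
  intro K _ _ hK C h
  have hcfg : HasCfg g m C := h.elim (hmpt g m K C) (hldt g m K C hm)
  have hdeg := hcfg.1
  obtain ⟨E, _, _, _, e, θ, hE, hfe, hr⟩ := hspv g m K C hcfg
  have hE' : Module.finrank ℚ E ≤ d * (2 * g + 1).factorial :=
    hE.trans (Nat.mul_le_mul_right _ hK)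
  have he : e ≠ 0 := by
    rintro rfl
    rw [Polynomial.C_0, zero_mul] at hfe
    exact C.sqfree.ne_zero ((Polynomial.map_eq_zero_iff (algebraMap K E).injective).1 hfe)
  constructor
  · intro φ
    let _ : Algebra K (AlgebraicClosure ℚ) := φ.toAlgebra
    have _ : Algebra.IsAlgebraic K E := by
      have _ : IsScalarTower ℚ K E := inferInstance
      exact Algebra.IsAlgebraic.tower_top (K := ℚ) K
    let ψ : E →ₐ[K] AlgebraicClosure ℚ := IsAlgClosed.lift
    have hψ : ∀ a : K, ψ (algebraMap K E a) = φ a := fun a => ψ.commutes a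
    obtain ⟨s, hs', μ, ν, hμ, hp⟩ := hS E hE' e θ hr ψ.toRingHom
    have hp' : ∀ j, ψ (θ j) = μ * s j + ν := hp
    refine ⟨s, hs', μ, ν, hμ, ?_⟩
    have h3 : C.f.map φ = (C.f.map (algebraMap K E)).map ψ.toRingHom := by
      rw [Polynomial.map_map]
      congr 1
      ext a
      exact (hψ a).symm
    have h4 : (C.f.map (algebraMap K E)).map ψ.toRingHom =
        Polynomial.C (ψ e) * ∏ j, (X - Polynomial.C (μ * s j + ν)) := by
      rw [hfe, Polynomial.map_mul, Polynomial.map_C, Polynomial.map_prod]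
      congr 1
      refine Finset.prod_congr rfl fun j _ => ?_
      rw [Polynomial.map_sub, Polynomial.map_X, Polynomial.map_C]
      rw [← hp' j]
      rfl
    have he' : ψ e ≠ 0 := (_root_.map_ne_zero ψ).2 he
    rw [h3, h4, Polynomial.roots_C_mul _ he']
    have h5 : (∏ j, (X - Polynomial.C (μ * s j + ν))) =
        ((Finset.univ.val.map fun j => μ * s j + ν).map
          fun a => X - Polynomial.C a).prod := by
      rw [Multiset.map_map]
      rfl
    rw [h5, Polynomial.roots_multiset_prod_X_sub_C]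
  · intro c hc'
    let C' : UBT.OddCurve E :=
      { f := C.f.map (algebraMap K E)
        odd := by rw [natDegree_map, hdeg]; exact ⟨g, rfl⟩
        sqfree := (PerfectField.separable_iff_squarefree.2 C.sqfree).map.squarefree }
    obtain ⟨c', hcc⟩ := hb K E (algebraMap K E) C C' rfl c
    have hfin : IsOfFinOrder c' := by
      rw [← orderOf_pos_iff, hcc]
      exact hc'.orderOf_pos
    rw [← hcc]
    exact hB E hE' e θ hr C' hfe c' hfin

end Pool.Agent.MNW.H28
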