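import Pool.Agent.MNW.StmtsA
import Pool.Agent.Helper28_MNT.MAIN

set_option autoImplicit false

/-!
# MNW: assembly of the final theorem
-/

namespace Pool.Agent.MNW.H28

open Polynomial NumberField
open Pool.Agent.MNT

theorem QR_eq (g m : ℕ) : QR g m = Finset.univ.map (Function.Embedding.inl (α := Fin (2 * g + 1))
    (β := Fin m)) := by
  ext p
  rcases p with p | p
  · simp [QR]
  · simp [QR]

theorem inl_mem (g m : ℕ) (j : Fin (2 * g + 1)) : (Sum.inl j : QI g m) ∈ QR g m := by simp [QR]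

theorem inr_notMem (g m : ℕ) (i : Fin m) : (Sum.inr i : QI g m) ∉ QR g m := by simp [QR]

theorem FF_elim {K : Type} [Field K] (g m : ℕ) (e : K) (θ : Fin (2 * g + 1) → K)
    (x : Fin m → K) :
    FF e (QR g m) (Sum.elim θ x) = C e * ∏ j, (X - C (θ j)) := by
  rw [FF, QR_eq, Finset.prod_map]
  rfl

theorem cfg_of {K : Type} [Field K] [CharZero K] (hpel : PelStmt) (g m : ℕ) (f : K[X])
    (hd : f.natDegree = 2 * g + 1) (hsq : Squarefree f)
    (x y : Fin m → K) (hx : Function.Injective x) (hon : ∀ i, y i ^ 2 = f.eval (x i))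
    (hne : ∀ i, y i ≠ 0) (htor : ∀ i, ∃ N, TorB f (x i) (y i) N) (e : K)
    (θ : Fin (2 * g + 1) → K) (hf : f = C e * ∏ j, (X - C (θ j))) :
    Cfg g m (Sum.elim θ x) e := by
  have hf0 : f ≠ 0 := hsq.ne_zero
  have he : e ≠ 0 := by
    rintro rfl
    rw [C_0, zero_mul] at hf
    exact hf0 hf
  have hroot : ∀ j, f.eval (θ j) = 0 := by
    intro j
    rw [hf, eval_mul, eval_prod]
    rw [Finset.prod_eq_zero (Finset.mem_univ j) (by simp), mul_zero]
  have hθ : Function.Injective θ := by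
    intro j k hjk
    by_contra hne'
    have h1 : (X - C (θ j)) * (X - C (θ j)) ∣ f := by
      rw [hf]
      apply Dvd.dvd.mul_left
      rw [← Finset.mul_prod_erase _ _ (Finset.mem_univ j)]
      apply mul_dvd_mul_left
      have h2 : k ∈ Finset.univ.erase j := Finset.mem_erase.2 ⟨fun h => hne' h.symm,
        Finset.mem_univ k⟩
      rw [← Finset.mul_prod_erase _ _ h2, ← hjk]
      exact dvd_mul_right _ _
    have h3 := hsq _ h1
    exact not_isUnit_X_sub_C _ h3
  refine ⟨?_, he, ?_⟩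
  · rw [Sum.elim_injective]
    refine ⟨hθ, hx, ?_⟩
    intro j i h
    apply hne i
    have h1 := hon i
    rw [← h, hroot j] at h1
    exact pow_eq_zero_iff (two_ne_zero) |>.1 h1
  · rintro (j | i) hp
    · exact absurd (inl_mem g m j) hp
    · rw [FF_elim, ← hf]
      obtain ⟨N, hN⟩ := htor i
      obtain ⟨U, W, c, h⟩ := hpel K f (x i) (y i) N two_ne_zero (hd ▸ ⟨g, rfl⟩) (hon i) (hne i) hN
      exact ⟨N, U, W, c, h⟩


end Pool.Agent.MNW.H28
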